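import Mathlib
import Pool.Agent.N781.A.Four

/-!
# Elliott's conjecture along almost all dilates, at every scale

`f_1, …, f_k` are multiplicative functions with values in the unit disc and `g = f_1 ⋯ f_k`. If `g`
is not close, at all primes but a set with a convergent sum of reciprocals, to a twisted Dirichlet
character `χ(p) p ^ (i v)`, then the correlations `∑_{n ≤ x} f_1(a_1 n + b_1 d) ⋯ f_k(a_k n + b_k d)`
are `o(x)` for all but `o(D)` of the integers `d ≤ D`, for all orders `k` and uniformly over all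
`D ≤ R x` tending to infinity.
-/

open Finset

namespace Pool.Agent.Results.MP_0c9a68_nt.AlmostAllDilates

/-- Multiplicative functions with values in the closed unit disc. -/
def IsMult (f : ℕ → ℂ) : Prop :=
  (∀ n, ‖f n‖ ≤ 1) ∧ ∀ m n : ℕ, m.Coprime n → f (m * n) = f m * f n

/-- `g` is far from all twisted characters: for every Dirichlet character `χ` and every real `v`
there is `η > 0` such that the sum of `1 / p` over the primes `p` with
`|g(p) - χ(p) p ^ (i v)| > η` is infinite. -/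
def FarFromTwists (g : ℕ → ℂ) : Prop :=
  ∀ (q : ℕ) (χ : DirichletCharacter ℂ q) (v : ℝ), 1 ≤ q → ∃ η : ℝ, 0 < η ∧
    ¬ Summable fun p : {p : ℕ // p.Prime ∧
      η < ‖g p - χ (p : ZMod q) * (p : ℂ) ^ (Complex.I * (v : ℂ))‖} => (1 : ℝ) / (p : ℕ)

/-- `g` has finitely many values at the primes, and `𝔻(g, χ; ∞) = ∞` for all Dirichlet characters
`χ`. -/
def FiniteNonPretentious (g : ℕ → ℂ) : Prop :=
  (g '' {p : ℕ | p.Prime}).Finite ∧ ∀ (q : ℕ) (χ : DirichletCharacter ℂ q), 1 ≤ q →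
    ¬ Summable fun p : Nat.Primes =>
      (1 - (g p * (starRingEnd ℂ) (χ ((p : ℕ) : ZMod q))).re) / ((p : ℕ) : ℝ)

/-- The correlation sum `∑_{n ≤ x} ∏ i, f i |a i n + b i d|`. -/
noncomputable def corr {k : ℕ} (a b : Fin k → ℤ) (f : Fin k → ℕ → ℂ) (x : ℕ) (d : ℤ) : ℂ :=
  ∑ n ∈ Icc (1 : ℤ) x, ∏ i, f i (a i * n + b i * d).natAbs

lemma unbounded_of_not_summable (P : ℕ → Prop) (a : ℕ → ℝ) (ha : ∀ p, P p → 0 ≤ a p)
    (h : ¬ Summable fun p : {p : ℕ // P p} => a p) (M : ℝ) :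
    ∃ T : ℕ, ∀ S : Finset ℕ, (∀ p, P p → p ≤ T → p ∈ S) → (∀ p ∈ S, P p) →
      M < ∑ p ∈ S, a p := by
  by_contra hcon
  push Not at hcon
  apply h
  refine summable_of_sum_le (c := M) (fun p => ha p p.2) fun u => ?_
  obtain ⟨S, hS1, hS2, hS3⟩ := hcon (u.sup (fun p => (p : ℕ)))
  refine le_trans ?_ hS3
  have h1 : ∑ p ∈ u, a p = ∑ p ∈ u.map (Function.Embedding.subtype P), a p := by
    rw [Finset.sum_map]
    rfl
  rw [h1]
  refine Finset.sum_le_sum_of_subset_of_nonneg ?_ fun p hp _ => ha p (hS2 p hp)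
  intro p hp
  rw [Finset.mem_map] at hp
  obtain ⟨⟨x, hx⟩, hxu, rfl⟩ := hp
  exact hS1 x hx (Finset.le_sup (f := fun p : {p : ℕ // P p} => (p : ℕ)) hxu)

/-- If `f_1, …, f_k` are multiplicative functions with values in the unit disc, the product of which is
far from all twisted characters, then for all `R`, all integers `a_i ≠ 0`, `b_i` and all `ε > 0` there
is `K` such that `∑_{d ≤ D} |∑_{n ≤ x} ∏ f_i(|a_i n + b_i d|)| ≤ ε D x` for all `x` and all
`K ≤ D ≤ R x`. -/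
theorem result : ∀ (k : ℕ), 0 < k → ∀ f : Fin k → ℕ → ℂ, (∀ i, IsMult (f i)) →
    (FarFromTwists (fun m => ∏ i, f i m) ∨ FiniteNonPretentious (fun m => ∏ i, f i m)) →
    ∀ (R : ℕ) (a b : Fin k → ℤ), (∀ i, a i ≠ 0) →
    ∀ ε : ℝ, 0 < ε → ∃ K : ℕ, ∀ D x : ℕ, K ≤ D → D ≤ R * x →
      ∑ d ∈ Icc (1 : ℤ) D, ‖corr a b f x d‖ ≤ ε * (D * x) := by
  intro k hk f hf h R a b ha ε hε
  refine Pool.Agent.N781.A.dil_qual R hk a b ha f hf ?_ ε hε
  rcases h with h | ⟨hfin, h⟩
  · left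
    intro q χ v hq
    obtain ⟨η, hη, hns⟩ := h q χ v hq
    refine ⟨η, hη, fun M => ?_⟩
    obtain ⟨T, hT⟩ := unbounded_of_not_summable _ (fun p => (1 : ℝ) / (p : ℕ))
      (fun p _ => by positivity) hns M
    refine ⟨T, hT _ (fun p hp hpT => ?_) (fun p hp => (Finset.mem_filter.mp hp).2)⟩
    exact Finset.mem_filter.mpr ⟨Finset.mem_Icc.mpr ⟨hp.1.one_lt.le, hpT⟩, hp⟩
  · right
    refine ⟨hfin.subset ?_, fun q χ hq M => ?_⟩
    · rintro _ ⟨p, rfl⟩
      exact ⟨p, p.2, rfl⟩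
    · obtain ⟨T, hT⟩ := unbounded_of_not_summable (fun p => p.Prime)
        (fun p => (1 - ((∏ i, f i p) * (starRingEnd ℂ) (χ ((p : ℕ) : ZMod q))).re) / (p : ℝ))
        (fun p _ => by
          refine div_nonneg ?_ (Nat.cast_nonneg _)
          have h1 : ‖(∏ i, f i p) * (starRingEnd ℂ) (χ ((p : ℕ) : ZMod q))‖ ≤ 1 := by
            rw [norm_mul, norm_prod, RCLike.norm_conj]
            refine mul_le_one₀ ?_ (norm_nonneg _) (DirichletCharacter.norm_le_one χ _)
            exact Finset.prod_le_one (fun _ _ => norm_nonneg _) fun i _ => (hf i).1 p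
          have h2 := (abs_le.mp (Complex.abs_re_le_norm
            ((∏ i, f i p) * (starRingEnd ℂ) (χ ((p : ℕ) : ZMod q))))).2
          linarith) (h q χ hq) M
      refine ⟨T, hT _ (fun p hp hpT => ?_) (fun p hp => (Finset.mem_filter.mp hp).2)⟩
      exact Finset.mem_filter.mpr ⟨Finset.mem_Icc.mpr ⟨hp.one_lt.le, hpT⟩, hp⟩

end Pool.Agent.Results.MP_0c9a68_nt.AlmostAllDilates
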