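import Mathlib
import Pool.Agent.N781.A.Four

/-!
# An inverse theorem for correlations of multiplicative functions along almost all dilates,
uniform in the functions

If the correlations `∑_{n ≤ x} f_1(a_1 n + b_1 d) ⋯ f_k(a_k n + b_k d)` are not small for most
`d ≤ D`, then the product `f_1 ⋯ f_k` is close to a twisted Dirichlet character of bounded modulus at
all primes but a set of bounded mass.
-/

open Finset

namespace Pool.Agent.Results.MP_f3f922_nt.InverseTheoremAlmostAllDilates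

/-- Multiplicative functions with values in the closed unit disc. -/
def IsMult (f : ℕ → ℂ) : Prop :=
  (∀ n, ‖f n‖ ≤ 1) ∧ ∀ m n : ℕ, m.Coprime n → f (m * n) = f m * f n

/-- The correlation sum `∑_{n ≤ x} ∏ i, f i |a i n + b i d|`. -/
noncomputable def corr {k : ℕ} (a b : Fin k → ℤ) (f : Fin k → ℕ → ℂ) (x : ℕ) (d : ℤ) : ℂ :=
  ∑ n ∈ Icc (1 : ℤ) x, ∏ i, f i (a i * n + b i * d).natAbs

open Classical in
/-- The sum of `1 / p` over the primes `p ≤ T` with `|g(p) - χ(p) p ^ (i v)| > η`. -/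
noncomputable def farMass {q : ℕ} (g : ℕ → ℂ) (χ : DirichletCharacter ℂ q) (v η : ℝ) (T : ℕ) : ℝ :=
  ∑ p ∈ (Finset.Icc 1 T).filter (fun p : ℕ => p.Prime ∧
    η < ‖g p - χ (p : ZMod q) * (p : ℂ) ^ (Complex.I * (v : ℂ))‖), 1 / (p : ℝ)

/-- The square of the pretentious distance `𝔻(g, χ; T)`. -/
noncomputable def distSq {q : ℕ} (g : ℕ → ℂ) (χ : DirichletCharacter ℂ q) (T : ℕ) : ℝ :=
  ∑ p ∈ (Finset.Icc 1 T).filter Nat.Prime,
    (1 - (g p * (starRingEnd ℂ) (χ (p : ZMod q))).re) / (p : ℝ)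

/-- Let `a_i ≠ 0`, `b_i` be integers, `ε > 0`, and let `S` be a finite set of complex numbers. If
`K ≤ D ≤ R x` and the sum over `d ≤ D` of `|∑_{n ≤ x} ∏ f_i(|a_i n + b_i d|)|` is larger than
`ε D x`, then the product `g = f_1 ⋯ f_k` is within `η` of `χ(p) p ^ (i v)`, `χ` modulo `q ≤ Q`,
`|v| ≤ U`, at all the primes `p ≤ T` outside a set of mass at most `M`; moreover `v = 0` and
`𝔻(g, χ; T) ^ 2 ≤ M` if the values of `g` at the primes lie in `S`. Here `Q` depends on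
`R, a, b, S, ε`, and `U, M` depend on `η` too, and `K` depends on `T` too. -/
theorem result : ∀ (k R : ℕ) (a b : Fin k → ℤ), 0 < k → (∀ i, a i ≠ 0) →
    ∀ S : Set ℂ, S.Finite → ∀ ε : ℝ, 0 < ε →
    ∃ Q : ℕ, ∀ η : ℝ, 0 < η → ∃ U M : ℝ, ∀ T : ℕ, ∃ K : ℕ,
      ∀ D x : ℕ, K ≤ D → D ≤ R * x → ∀ f : Fin k → ℕ → ℂ, (∀ i, IsMult (f i)) →
      ε * (D * x) < ∑ d ∈ Icc (1 : ℤ) D, ‖corr a b f x d‖ →
      ∃ (q : ℕ) (χ : DirichletCharacter ℂ q) (v : ℝ), 1 ≤ q ∧ q ≤ Q ∧ |v| ≤ U ∧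
        farMass (fun p => ∏ i, f i p) χ v η T ≤ M ∧
        ((∀ p : ℕ, p.Prime → ∏ i, f i p ∈ S) →
          v = 0 ∧ distSq (fun p => ∏ i, f i p) χ T ≤ M) := by
  intro k R a b hk ha S hS ε hε
  exact Pool.Agent.N781.A.dil_inverse R hk a b ha S hS ε hε

end Pool.Agent.Results.MP_f3f922_nt.InverseTheoremAlmostAllDilates
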