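import Mathlib
import Pool.Agent.N781.S.All

/-!
# The structure of the correlations of the Liouville function, and of all bounded multiplicative
functions, along almost all dilates: every order, every scale

For the Liouville function `f 1 = ⋯ = f k = λ`, `a i = 1`, `b i = i - 1` the sum `corr a b f x d` is
the dilated sum `∑_{n ≤ x} λ(n) λ(n + d) ⋯ λ(n + (k - 1) d)`, with `d = 1` in Chowla's conjecture. For
every order `k`, even orders included, and for every `x` it is, for almost all `d ≤ D`, determined by
its averages over the `d` of a residue class modulo `Q` in an interval of length `D / Q`, where `Q`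
depends only on the forms and on the precision.
-/

open Finset

namespace Pool.Agent.N781.Shelf.StructureAlongDilates

/-- Multiplicative functions with values in the closed unit disc. -/
def IsMult (f : ℕ → ℂ) : Prop :=
  (∀ n, ‖f n‖ ≤ 1) ∧ ∀ m n : ℕ, m.Coprime n → f (m * n) = f m * f n

/-- The correlation sum `∑_{n ≤ x} ∏ i, f i |a i n + b i d|`. -/
noncomputable def corr {k : ℕ} (a b : Fin k → ℤ) (f : Fin k → ℕ → ℂ) (x : ℕ) (d : ℤ) : ℂ :=
  ∑ n ∈ Icc (1 : ℤ) x, ∏ i, f i (a i * n + b i * d).natAbs

/-- The integers `e` in `[1, D]` which are congruent to `d` modulo `Q` and are in the same of the `Q`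
intervals of length `D / Q` as `d`. -/
noncomputable def cell (Q D : ℕ) (d : ℤ) : Finset ℤ :=
  (Icc (1 : ℤ) D).filter fun e => (e - 1) * Q / D = (d - 1) * Q / D ∧ e % Q = d % Q

/-- The average of `c` over the cell of `d`. -/
noncomputable def cellMean (Q D : ℕ) (c : ℤ → ℂ) (d : ℤ) : ℂ :=
  (∑ e ∈ cell Q D d, c e) / (cell Q D d).card

/-- **Structure theorem.** For all integers `a i ≠ 0`, `b i`, all `R` and all `ε > 0` there are `Q`,
`δ > 0` and `K` such that for all multiplicative functions `f i` with values in the unit disc, all `x`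
and all `K ≤ D ≤ R x`, the correlations are within `ε D x`, in the sum over `d ≤ D`, of their averages
over the cells; in particular they are almost invariant under the shifts of `d` by the multiples of `Q`
up to `δ D`. -/
theorem result : ∀ (k R : ℕ) (a b : Fin k → ℤ), 0 < k → (∀ i, a i ≠ 0) → ∀ ε : ℝ, 0 < ε →
    ∃ (Q : ℕ) (δ : ℝ) (K : ℕ), 0 < Q ∧ 0 < δ ∧ ∀ D x : ℕ, K ≤ D → D ≤ R * x →
      ∀ f : Fin k → ℕ → ℂ, (∀ i, IsMult (f i)) →
      ∑ d ∈ Icc (1 : ℤ) D, ‖corr a b f x d - cellMean Q D (corr a b f x) d‖ ≤ ε * (D * x) ∧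
      ∀ h : ℕ, ((Q * h : ℕ) : ℝ) ≤ δ * D →
        ∑ d ∈ Icc (1 : ℤ) D, ‖corr a b f x (d + (Q * h : ℕ)) - corr a b f x d‖ ≤ ε * (D * x) := by
  intro k R a b hk ha ε hε
  exact Pool.Agent.N781.S.structure_theorem R k a b hk ha ε hε

end Pool.Agent.N781.Shelf.StructureAlongDilates
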